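import Mathlib

set_option autoImplicit false

namespace Pool.Agent.H448Z.Pel

open Finset

/-- The injective norm of the matrix `γ` is at most `B`: every finite section of the form
`(x, y) ↦ ∑ γ m k * x m * y k` has modulus at most `B` when all `|x m| ≤ 1` and `|y k| ≤ 1`. -/
def InjBound (γ : ℕ → ℕ → ℂ) (B : ℝ) : Prop :=
  ∀ (x y : ℕ → ℂ), (∀ m, ‖x m‖ ≤ 1) → (∀ k, ‖y k‖ ≤ 1) → ∀ M : ℕ,
    ‖∑ m ∈ range M, ∑ k ∈ range M, γ m k * x m * y k‖ ≤ B

/-- `γ` lies in the completed injective tensor product of `ℓ¹` with itself: it is a limit, in the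
injective norm, of matrices with finitely many nonzero entries. -/
def InTensor (γ : ℕ → ℕ → ℂ) : Prop :=
  ∀ ε : ℝ, 0 < ε → ∃ δ : ℕ → ℕ → ℂ, (∃ M : ℕ, ∀ m k, M ≤ m ∨ M ≤ k → δ m k = 0) ∧
    InjBound (fun m k => γ m k - δ m k) ε

/-- The `n`-th Taylor coefficient of `φ` at the origin. -/
noncomputable def taylor (φ : ℂ → ℂ) (n : ℕ) : ℂ := iteratedDeriv n φ 0 / (n.factorial : ℂ)

/-- The sums of `γ m k` over `m + k = n` are the Taylor coefficients of `φ`. -/
def Represents (γ : ℕ → ℕ → ℂ) (φ : ℂ → ℂ) : Prop :=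
  ∀ n : ℕ, ∑ p ∈ antidiagonal n, γ p.1 p.2 = taylor φ n

/-- The numbers `B` that bound the injective norm of some matrix of the injective tensor product
representing `φ`. -/
def bounds (φ : ℂ → ℂ) : Set ℝ := {B | ∃ γ, InTensor γ ∧ InjBound γ B ∧ Represents γ φ}

/-- Membership in the space `𝓛`: `φ` is analytic in the unit disc and has finite `𝓛`-norm. -/
def InL (φ : ℂ → ℂ) : Prop := AnalyticOnNhd ℂ φ (Metric.ball 0 1) ∧ (bounds φ).Nonempty

/-- The norm of `𝓛`: the infimum of the injective norms of the matrices representing `φ`. -/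
noncomputable def normL (φ : ℂ → ℂ) : ℝ := sInf (bounds φ)

end Pool.Agent.H448Z.Pel
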