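import Pool.Agent.H448Z.Pel.GT

set_option autoImplicit false

namespace Pool.Agent.H448Z.Pel

open Finset
open scoped ComplexConjugate

/-- the finite section of the form -/
noncomputable def form (γ : ℕ → ℕ → ℂ) (M : ℕ) (x y : ℕ → ℂ) : ℂ :=
  ∑ k ∈ range M, ∑ l ∈ range M, γ k l * x k * y l

lemma fact {γ : ℕ → ℕ → ℂ} {B : ℝ} (h : InjBound γ B) (M : ℕ) {c : ℝ} (hc : KK * B < c) :
    ∃ lam : ℕ → ℝ, (∀ k, 0 ≤ lam k) ∧ ∑ k ∈ range M, lam k ≤ 1 ∧
      ∀ x y : ℕ → ℂ, (∀ l, ‖y l‖ ≤ 1) →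
        ‖form γ M x y‖ ^ 2 ≤ c ^ 2 * ∑ k ∈ range M, lam k * ‖x k‖ ^ 2 := by
  have hc0 : 0 < c := lt_of_le_of_lt (mul_nonneg KK_pos.le h.nonneg) hc
  rcases Nat.eq_zero_or_pos M with rfl | hM
  · exact ⟨0, fun _ => le_rfl, by simp, fun x y _ => by simp [form]⟩
  have : Nonempty (Fin M) := ⟨⟨0, hM⟩⟩
  let S : Set (Fin M → ℝ) := {f | ∃ x y : ℕ → ℂ, (∀ l, ‖y l‖ ≤ 1) ∧
    f = fun k : Fin M => c ^ 2 * ‖x k‖ ^ 2 - ‖form γ M x y‖ ^ 2}
  have h0 : (0 : Fin M → ℝ) ∈ S := ⟨0, 0, by simp, by ext k; simp [form]⟩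
  have hS : ∀ f ∈ convexHull ℝ S, ∃ k, 0 ≤ f k := by
    intro f hf
    obtain ⟨ρ, _, w, z, hw, hw1, hz, rfl⟩ := mem_convexHull_iff_exists_fintype.1 hf
    choose x y hy hz using hz
    by_contra hcon
    push Not at hcon
    set T : ℝ := ∑ r, w r * ‖form γ M (x r) (y r)‖ ^ 2 with hT
    have h1 : ∀ k : Fin M, c ^ 2 * ∑ r, w r * ‖x r k‖ ^ 2 < T := by
      intro k
      have := hcon k
      rw [Finset.sum_apply] at this
      have h2 : ∑ r, (w r • z r) k = c ^ 2 * ∑ r, w r * ‖x r k‖ ^ 2 - T := by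
        rw [hT, Finset.mul_sum, ← Finset.sum_sub_distrib]
        refine Finset.sum_congr rfl fun r _ => ?_
        rw [hz r]
        simp only [Pi.smul_apply, smul_eq_mul]
        ring
      linarith
    have hTpos : 0 < T := by
      refine lt_of_le_of_lt ?_ (h1 ⟨0, hM⟩)
      exact mul_nonneg (sq_nonneg _) (Finset.sum_nonneg fun r _ => mul_nonneg (hw r) (sq_nonneg _))
    have hsT : 0 < Real.sqrt T := Real.sqrt_pos.2 hTpos
    have hsT2 : Real.sqrt T ^ 2 = T := Real.sq_sqrt hTpos.le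
    let a : ℕ → ρ → ℂ := fun k r =>
      if k < M then ((c * Real.sqrt (w r) / Real.sqrt T : ℝ) : ℂ) * x r k else 0
    let b : ℕ → ρ → ℂ := fun l r =>
      ((Real.sqrt (w r) / Real.sqrt T : ℝ) : ℂ) * conj (form γ M (x r) (y r)) * y r l
    have ha : ∀ k, ∑ r, ‖a k r‖ ^ 2 ≤ 1 := by
      intro k
      by_cases hk : k < M
      · have h2 := h1 ⟨k, hk⟩
        have h3 : ∑ r, ‖a k r‖ ^ 2 = (c ^ 2 * ∑ r, w r * ‖x r k‖ ^ 2) / T := by
          rw [Finset.mul_sum, Finset.sum_div]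
          refine Finset.sum_congr rfl fun r _ => ?_
          simp only [a, if_pos hk, norm_mul, Complex.norm_real, Real.norm_eq_abs, mul_pow, sq_abs,
            div_pow, hsT2, Real.sq_sqrt (hw r)]
          ring
        rw [h3, div_le_one hTpos]
        exact h2.le
      · simp [a, hk]
    have hb : ∀ l, ∑ r, ‖b l r‖ ^ 2 ≤ 1 := by
      intro l
      have h3 : ∑ r, ‖b l r‖ ^ 2 ≤ T / T := by
        conv_rhs => rw [hT]
        rw [Finset.sum_div]
        refine Finset.sum_le_sum fun r _ => ?_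
        simp only [b, norm_mul, Complex.norm_real, Real.norm_eq_abs, mul_pow, sq_abs,
            div_pow, hsT2, Real.sq_sqrt (hw r), RCLike.norm_conj]
        have h4 : ‖y r l‖ ^ 2 ≤ 1 := by
          have := hy r l
          have := norm_nonneg (y r l)
          nlinarith
        have h5 : 0 ≤ w r / T * ‖form γ M (x r) (y r)‖ ^ 2 :=
          mul_nonneg (div_nonneg (hw r) hTpos.le) (sq_nonneg _)
        calc w r / T * ‖form γ M (x r) (y r)‖ ^ 2 * ‖y r l‖ ^ 2
            ≤ w r / T * ‖form γ M (x r) (y r)‖ ^ 2 * 1 := by gcongr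
          _ = _ := by rw [← hT]; ring
      rwa [div_self hTpos.ne'] at h3
    have h4 := gt_ball h M a b ha hb
    have h5 : ∑ i ∈ range M, ∑ j ∈ range M, γ i j * ∑ r, a i r * b j r = (c : ℂ) := by
      have h6 : ∑ i ∈ range M, ∑ j ∈ range M, γ i j * ∑ r, a i r * b j r =
          ∑ r, ((c * w r / T : ℝ) : ℂ) * conj (form γ M (x r) (y r)) * form γ M (x r) (y r) := by
        simp only [Finset.mul_sum]
        rw [Finset.sum_comm]
        conv_lhs => arg 2; ext j; rw [Finset.sum_comm]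
        rw [Finset.sum_comm]
        refine Finset.sum_congr rfl fun r _ => ?_
        set s := conj (form γ M (x r) (y r)) with hs
        unfold form
        rw [Finset.sum_comm, Finset.mul_sum]
        refine Finset.sum_congr rfl fun i hi => ?_
        rw [Finset.mul_sum]
        refine Finset.sum_congr rfl fun j _ => ?_
        have hi' : i < M := Finset.mem_range.1 hi
        simp only [a, b, if_pos hi']
        have h7 : ((c * Real.sqrt (w r) / Real.sqrt T : ℝ) : ℂ) *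
            ((Real.sqrt (w r) / Real.sqrt T : ℝ) : ℂ) = ((c * w r / T : ℝ) : ℂ) := by
          rw [← Complex.ofReal_mul]
          congr 1
          have e1 : Real.sqrt (w r) * Real.sqrt (w r) = w r := Real.mul_self_sqrt (hw r)
          have e2 : Real.sqrt T * Real.sqrt T = T := Real.mul_self_sqrt hTpos.le
          rw [div_mul_div_comm, e2, mul_assoc, e1]
        rw [← h7, ← hs]
        ring
      rw [h6]
      have h8 : ∀ r, ((c * w r / T : ℝ) : ℂ) * conj (form γ M (x r) (y r)) * form γ M (x r) (y r) =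
          ((c / T * (w r * ‖form γ M (x r) (y r)‖ ^ 2) : ℝ) : ℂ) := by
        intro r
        rw [mul_assoc, mul_comm (conj _), Complex.mul_conj, Complex.normSq_eq_norm_sq,
          ← Complex.ofReal_mul]
        congr 1
        ring
      simp only [h8]
      rw [← Complex.ofReal_sum, ← Finset.mul_sum, ← hT, div_mul_cancel₀ _ hTpos.ne']
    rw [h5, Complex.norm_real, Real.norm_of_nonneg hc0.le] at h4
    linarith
  obtain ⟨lam, h1, h2, h3⟩ := exists_prob S h0 hS
  refine ⟨fun k => if hk : k < M then lam ⟨k, hk⟩ else 0, fun k => ?_, ?_, fun x y hy => ?_⟩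
  · dsimp only
    split_ifs
    · exact h1 _
    · exact le_rfl
  · rw [Finset.sum_range, ← h2]
    refine le_of_eq (Finset.sum_congr rfl fun k _ => ?_)
    simp
  · have h4 := h3 _ ⟨x, y, hy, rfl⟩
    have h5 : ∑ k : Fin M, lam k * (c ^ 2 * ‖x k‖ ^ 2 - ‖form γ M x y‖ ^ 2) =
        c ^ 2 * ∑ k : Fin M, lam k * ‖x k‖ ^ 2 - ‖form γ M x y‖ ^ 2 := by
      simp only [mul_sub, Finset.sum_sub_distrib]
      rw [← Finset.sum_mul, h2, one_mul, Finset.mul_sum]
      congr 1
      exact Finset.sum_congr rfl fun k _ => by ring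
    rw [h5] at h4
    rw [Finset.sum_range]
    have h6 : ∑ k : Fin M, (if hk : (k : ℕ) < M then lam ⟨k, hk⟩ else 0) * ‖x k‖ ^ 2 =
        ∑ k : Fin M, lam k * ‖x k‖ ^ 2 := Finset.sum_congr rfl fun k _ => by simp
    rw [h6]
    linarith

lemma tensor_bound {γ γ' : ℕ → ℕ → ℂ} {B B' : ℝ} (h : InjBound γ B) (h' : InjBound γ' B')
    (X Y : ℕ → ℕ → ℂ) (hX : ∀ i k, ‖X i k‖ ≤ 1) (hY : ∀ j l, ‖Y j l‖ ≤ 1) (M : ℕ) {c : ℝ}
    (hc : KK * B' < c) :
    ‖∑ i ∈ range M, ∑ j ∈ range M, γ i j * form γ' M (X i) (Y j)‖ ≤ KK * B * c := by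
  have hc0 : 0 < c := lt_of_le_of_lt (mul_nonneg KK_pos.le h'.nonneg) hc
  obtain ⟨lam, h1, h2, h3⟩ := fact h' M hc
  let w : ℕ → ℕ → ℂ := fun j k => ∑ l ∈ range M, γ' k l * Y j l
  have hform : ∀ (x : ℕ → ℂ) (j : ℕ), form γ' M x (Y j) = ∑ k ∈ range M, x k * w j k := by
    intro x j
    unfold form
    refine Finset.sum_congr rfl fun k _ => ?_
    rw [Finset.mul_sum]
    exact Finset.sum_congr rfl fun l _ => by ring
  have hw0 : ∀ j k, k < M → lam k = 0 → w j k = 0 := by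
    intro j k hk hl
    have h4 := h3 (fun m => if m = k then 1 else 0) (Y j) (hY j)
    rw [hform] at h4
    have h5 : ∑ m ∈ range M, (if m = k then (1 : ℂ) else 0) * w j m = w j k := by
      simp [hk]
    have h6 : ∑ m ∈ range M, lam m * ‖(if m = k then (1 : ℂ) else 0)‖ ^ 2 = 0 := by
      refine Finset.sum_eq_zero fun m _ => ?_
      split_ifs with hm
      · rw [hm, hl, zero_mul]
      · simp
    rw [h5, h6, mul_zero] at h4
    have h7 : ‖w j k‖ ^ 2 = 0 := le_antisymm h4 (sq_nonneg _)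
    simpa using h7
  have hwS : ∀ j, ∑ k ∈ range M, ‖w j k‖ ^ 2 / lam k ≤ c ^ 2 := by
    intro j
    set T := ∑ k ∈ range M, ‖w j k‖ ^ 2 / lam k with hT
    have hT0 : 0 ≤ T := Finset.sum_nonneg fun k _ => div_nonneg (sq_nonneg _) (h1 k)
    have h4 := h3 (fun k => conj (w j k) / (lam k : ℂ)) (Y j) (hY j)
    rw [hform] at h4
    have h5 : ∑ k ∈ range M, conj (w j k) / (lam k : ℂ) * w j k = (T : ℂ) := by
      rw [hT, Complex.ofReal_sum]
      refine Finset.sum_congr rfl fun k _ => ?_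
      rw [div_mul_eq_mul_div, mul_comm, Complex.mul_conj, Complex.normSq_eq_norm_sq]
      push_cast
      rfl
    have h6 : ∑ k ∈ range M, lam k * ‖conj (w j k) / (lam k : ℂ)‖ ^ 2 = T := by
      rw [hT]
      refine Finset.sum_congr rfl fun k _ => ?_
      rw [norm_div, RCLike.norm_conj, Complex.norm_real, Real.norm_of_nonneg (h1 k)]
      rcases (h1 k).eq_or_lt with h0 | h0
      · rw [← h0]; simp
      · field_simp
    rw [h5, h6, Complex.norm_real, Real.norm_of_nonneg hT0] at h4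
    rcases hT0.eq_or_lt with h0 | h0
    · rw [← h0]; exact sq_nonneg _
    · nlinarith
  let a : ℕ → Fin M → ℂ := fun i k => (Real.sqrt (lam k) : ℂ) * X i k
  let b : ℕ → Fin M → ℂ := fun j k => w j k / ((c * Real.sqrt (lam k) : ℝ) : ℂ)
  have ha : ∀ i, ∑ k, ‖a i k‖ ^ 2 ≤ 1 := by
    intro i
    refine le_trans ?_ h2
    rw [Finset.sum_range]
    refine Finset.sum_le_sum fun k _ => ?_
    simp only [a, norm_mul, Complex.norm_real, Real.norm_eq_abs, mul_pow, sq_abs,
      Real.sq_sqrt (h1 k)]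
    have h4 : ‖X i k‖ ^ 2 ≤ 1 := by
      have := hX i k
      have := norm_nonneg (X i k)
      nlinarith
    exact mul_le_of_le_one_right (h1 k) h4
  have hb : ∀ j, ∑ k, ‖b j k‖ ^ 2 ≤ 1 := by
    intro j
    have h4 := hwS j
    rw [Finset.sum_range] at h4
    have h5 : ∑ k, ‖b j k‖ ^ 2 = (∑ k : Fin M, ‖w j k‖ ^ 2 / lam k) / c ^ 2 := by
      rw [Finset.sum_div]
      refine Finset.sum_congr rfl fun k _ => ?_
      simp only [b, norm_div, Complex.norm_real, Real.norm_eq_abs, div_pow, mul_pow, sq_abs,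
        Real.sq_sqrt (h1 k)]
      rw [div_div, mul_comm]
    rw [h5, div_le_one (by positivity)]
    exact h4
  have h4 := gt_ball h M a b ha hb
  have h5 : ∀ i j, form γ' M (X i) (Y j) = (c : ℂ) * ∑ k, a i k * b j k := by
    intro i j
    rw [hform, Finset.sum_range, Finset.mul_sum]
    refine Finset.sum_congr rfl fun k _ => ?_
    rcases (h1 k).eq_or_lt with h0 | h0
    · simp only [b, hw0 j k k.2 h0.symm]
      simp
    · have h6 : ((Real.sqrt (lam k) : ℝ) : ℂ) ≠ 0 := by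
        exact_mod_cast (Real.sqrt_pos.2 h0).ne'
      have h7 : (c : ℂ) ≠ 0 := by exact_mod_cast hc0.ne'
      simp only [a, b]
      push_cast
      field_simp
  have h6 : ∑ i ∈ range M, ∑ j ∈ range M, γ i j * form γ' M (X i) (Y j) =
      (c : ℂ) * ∑ i ∈ range M, ∑ j ∈ range M, γ i j * ∑ k, a i k * b j k := by
    rw [Finset.mul_sum]
    refine Finset.sum_congr rfl fun i _ => ?_
    rw [Finset.mul_sum]
    refine Finset.sum_congr rfl fun j _ => ?_
    rw [h5]
    ring
  rw [h6, norm_mul, Complex.norm_real, Real.norm_of_nonneg hc0.le, mul_comm (KK * B)]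
  exact mul_le_mul_of_nonneg_left h4 hc0.le

end Pool.Agent.H448Z.Pel
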