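import Pool.Agent.H448Z.Pel.Defs
import Pool.Agent.H809R2.GI.CUpper4

set_option autoImplicit false

namespace Pool.Agent.H448Z.Pel

open Finset
open scoped ComplexConjugate

/-- a Grothendieck constant -/
noncomputable def KK : ℝ := Real.exp (1 - Real.eulerMascheroniConstant)

lemma KK_pos : 0 < KK := Real.exp_pos _

lemma InjBound.nonneg {γ : ℕ → ℕ → ℂ} {B : ℝ} (h : InjBound γ B) : 0 ≤ B :=
  (norm_nonneg _).trans (h 0 0 (by simp) (by simp) 0)

lemma signNorm_le {γ : ℕ → ℕ → ℂ} {B : ℝ} (h : InjBound γ B) (M : ℕ) :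
    H809R2.GI.signNorm (𝕜 := ℂ) (m := M) (n := M) (fun i j => γ i j) ≤ B := by
  unfold H809R2.GI.signNorm
  apply csSup_le
  · exact ⟨_, fun _ => 1, fun _ => 1, by simp, by simp, rfl⟩
  · rintro r ⟨p, q, hp, hq, rfl⟩
    have h1 := h (fun m => if hm : m < M then p ⟨m, hm⟩ else 0)
      (fun m => if hm : m < M then q ⟨m, hm⟩ else 0)
      (fun m => by
        split_ifs with hm
        · exact (hp _).le
        · simp)
      (fun m => by
        split_ifs with hm
        · exact (hq _).le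
        · simp) M
    rw [Finset.sum_range] at h1
    refine le_trans (le_of_eq ?_) h1
    congr 1
    refine Finset.sum_congr rfl fun i _ => ?_
    rw [Finset.sum_range]
    refine Finset.sum_congr rfl fun j _ => ?_
    simp

lemma gt_ball {γ : ℕ → ℕ → ℂ} {B : ℝ} (h : InjBound γ B) (M : ℕ) {ρ : Type} [Fintype ρ]
    (a b : ℕ → ρ → ℂ) (ha : ∀ i, ∑ r, ‖a i r‖ ^ 2 ≤ 1) (hb : ∀ j, ∑ r, ‖b j r‖ ^ 2 ≤ 1) :
    ‖∑ i ∈ range M, ∑ j ∈ range M, γ i j * ∑ r, a i r * b j r‖ ≤ KK * B := by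
  let u : Fin M → EuclideanSpace ℂ (ρ ⊕ Bool) := fun i => WithLp.toLp 2
    (Sum.elim (fun r => conj (a i r))
      (fun t => if t then ((Real.sqrt (1 - ∑ r, ‖a i r‖ ^ 2) : ℝ) : ℂ) else 0))
  let v : Fin M → EuclideanSpace ℂ (ρ ⊕ Bool) := fun j => WithLp.toLp 2
    (Sum.elim (fun r => b j r)
      (fun t => if t then 0 else ((Real.sqrt (1 - ∑ r, ‖b j r‖ ^ 2) : ℝ) : ℂ)))
  have hu : ∀ i, ‖u i‖ = 1 := by
    intro i
    rw [EuclideanSpace.norm_eq, Real.sqrt_eq_one]
    have h1 : 0 ≤ 1 - ∑ r, ‖a i r‖ ^ 2 := by linarith [ha i]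
    simp [u, Fintype.sum_sum_type, Real.sq_sqrt h1]
  have hv : ∀ j, ‖v j‖ = 1 := by
    intro j
    rw [EuclideanSpace.norm_eq, Real.sqrt_eq_one]
    have h1 : 0 ≤ 1 - ∑ r, ‖b j r‖ ^ 2 := by linarith [hb j]
    simp [v, Fintype.sum_sum_type, Real.sq_sqrt h1]
  have huv : ∀ i j, inner ℂ (u i) (v j) = ∑ r, a i r * b j r := by
    intro i j
    simp [u, v, PiLp.inner_apply, Fintype.sum_sum_type, mul_comm]
  have h1 := H809R2.GI.pisier.2 M M (fun i j => γ i j) (EuclideanSpace ℂ (ρ ⊕ Bool)) u v hu hv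
  have h2 := signNorm_le h M
  have h3 : KK * H809R2.GI.signNorm (𝕜 := ℂ) (m := M) (n := M) (fun i j => γ i j) ≤ KK * B :=
    mul_le_mul_of_nonneg_left h2 KK_pos.le
  refine le_trans (le_of_eq ?_) (h1.trans h3)
  congr 1
  rw [Finset.sum_range]
  refine Finset.sum_congr rfl fun i _ => ?_
  rw [Finset.sum_range]
  refine Finset.sum_congr rfl fun j _ => ?_
  rw [huv]

lemma exists_prob {ι : Type} [Fintype ι] [Nonempty ι] (S : Set (ι → ℝ)) (h0 : 0 ∈ S)
    (hS : ∀ f ∈ convexHull ℝ S, ∃ k, 0 ≤ f k) :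
    ∃ lam : ι → ℝ, (∀ k, 0 ≤ lam k) ∧ ∑ k, lam k = 1 ∧ ∀ f ∈ S, 0 ≤ ∑ k, lam k * f k := by
  classical
  let N : Set (ι → ℝ) := {g | ∀ k, g k < 0}
  have hNo : IsOpen N := by
    have : N = ⋂ k, {g : ι → ℝ | g k < 0} := by ext g; simp [N]
    rw [this]
    exact isOpen_iInter_of_finite fun k => isOpen_lt (continuous_apply k) continuous_const
  have hNc : Convex ℝ N := by
    have : N = ⋂ k, {g : ι → ℝ | g k < 0} := by ext g; simp [N]
    rw [this]
    refine convex_iInter fun k => ?_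
    exact convex_halfSpace_lt (f := fun g : ι → ℝ => g k) ⟨fun _ _ => rfl, fun _ _ => rfl⟩ 0
  have hd : Disjoint N (convexHull ℝ S) := by
    rw [Set.disjoint_left]
    intro g hg hg'
    obtain ⟨k, hk⟩ := hS g hg'
    exact absurd (hg k) (not_lt.2 hk)
  obtain ⟨L, u, h1, h2⟩ := geometric_hahn_banach_open hNc hNo (convex_convexHull ℝ S) hd
  have hu0 : u ≤ 0 := by
    have := h2 0 (subset_convexHull ℝ S h0)
    simpa using this
  let l : ι → ℝ := fun k => L (Pi.single k 1)
  have hL : ∀ g : ι → ℝ, L g = ∑ k, l k * g k := by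
    intro g
    have : g = ∑ k, g k • (Pi.single k (1 : ℝ) : ι → ℝ) := by
      ext j
      simp [Finset.sum_apply, Pi.single_apply]
    conv_lhs => rw [this]
    rw [map_sum]
    refine Finset.sum_congr rfl fun k _ => ?_
    rw [map_smul, smul_eq_mul, mul_comm]
  set T := ∑ k, l k with hT
  have hneg : ∀ ε : ℝ, 0 < ε → -(ε * T) < u := by
    intro ε hε
    have := h1 (fun _ => -ε) (fun _ => by linarith)
    rw [hL, ← Finset.sum_mul] at this
    linarith
  have hTpos : 0 < T := by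
    have := hneg 1 one_pos
    linarith
  have hu1 : 0 ≤ u := by
    by_contra hc
    push Not at hc
    have := hneg (-u / T) (div_pos (by linarith) hTpos)
    rw [div_mul_cancel₀ _ hTpos.ne'] at this
    linarith
  have hl : ∀ k, 0 ≤ l k := by
    intro k
    by_contra hc
    push Not at hc
    have h3 := h1 (fun j => -1 - (if j = k then T / (-l k) else 0)) (fun j => by
      have : 0 < T / (-l k) := div_pos hTpos (by linarith)
      dsimp only
      split_ifs <;> linarith)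
    rw [hL] at h3
    have h4 : ∑ j, l j * (-1 - (if j = k then T / (-l k) else 0)) = -T - l k * (T / (-l k)) := by
      simp only [mul_sub, Finset.sum_sub_distrib, mul_ite, mul_zero, Finset.sum_ite_eq',
        Finset.mem_univ, if_true, mul_neg, mul_one, Finset.sum_neg_distrib, hT]
    have h5 : l k * (T / (-l k)) = -T := by
      have : l k ≠ 0 := hc.ne
      field_simp
    rw [h4, h5] at h3
    linarith
  refine ⟨fun k => l k / T, fun k => div_nonneg (hl k) hTpos.le, ?_, fun f hf => ?_⟩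
  · rw [← Finset.sum_div, div_self hTpos.ne']
  · have h3 := h2 f (subset_convexHull ℝ S hf)
    rw [hL] at h3
    have h4 : ∑ k, l k / T * f k = (∑ k, l k * f k) / T := by
      rw [Finset.sum_div]
      exact Finset.sum_congr rfl fun k _ => by ring
    rw [h4]
    exact div_nonneg (by linarith) hTpos.le

end Pool.Agent.H448Z.Pel
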