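import Pool.Agent.H448Z.Pel.Fact

set_option autoImplicit false

namespace Pool.Agent.H448Z.Pel

open Finset

/-- convolution of matrices -/
noncomputable def conv (γ γ' : ℕ → ℕ → ℂ) (m n : ℕ) : ℂ :=
  ∑ p ∈ antidiagonal m, ∑ q ∈ antidiagonal n, γ p.1 q.1 * γ' p.2 q.2

lemma sum_antidiag_trunc (M : ℕ) (g : ℕ → ℕ → ℂ) (x : ℕ → ℂ) :
    ∑ m ∈ range M, (∑ p ∈ antidiagonal m, g p.1 p.2) * x m =
      ∑ i ∈ range M, ∑ k ∈ range M, g i k * (if i + k < M then x (i + k) else 0) := by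
  have h1 : ∑ i ∈ range M, ∑ k ∈ range M, g i k * (if i + k < M then x (i + k) else 0) =
      ∑ p ∈ (range M ×ˢ range M).filter (fun p => p.1 + p.2 < M), g p.1 p.2 * x (p.1 + p.2) := by
    rw [Finset.sum_filter, Finset.sum_product]
    refine Finset.sum_congr rfl fun i _ => Finset.sum_congr rfl fun k _ => ?_
    split_ifs <;> simp
  rw [h1]
  simp only [Finset.sum_mul]
  rw [Finset.sum_sigma' (range M) (fun m => antidiagonal m) (fun m p => g p.1 p.2 * x m)]
  refine Finset.sum_bij' (fun q _ => q.2) (fun p _ => ⟨p.1 + p.2, p⟩) ?_ ?_ ?_ ?_ ?_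
  · intro q hq
    simp only [mem_sigma, mem_range, HasAntidiagonal.mem_antidiagonal] at hq
    simp only [mem_filter, mem_product, mem_range]
    omega
  · intro p hp
    simp only [mem_filter, mem_product, mem_range] at hp
    simp only [mem_sigma, mem_range, HasAntidiagonal.mem_antidiagonal]
    exact ⟨hp.2, trivial⟩
  · rintro ⟨n, p⟩ hq
    simp only [mem_sigma, mem_range, HasAntidiagonal.mem_antidiagonal] at hq
    obtain ⟨_, rfl⟩ := hq
    rfl
  · intro p _; rfl
  · rintro ⟨n, p⟩ hq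
    simp only [mem_sigma, mem_range, HasAntidiagonal.mem_antidiagonal] at hq
    obtain ⟨_, rfl⟩ := hq
    rfl

lemma conv_form (γ γ' : ℕ → ℕ → ℂ) (M : ℕ) (x y : ℕ → ℂ) :
    ∑ m ∈ range M, ∑ n ∈ range M, conv γ γ' m n * x m * y n =
      ∑ i ∈ range M, ∑ j ∈ range M, γ i j * form γ' M
        (fun k => if i + k < M then x (i + k) else 0)
        (fun l => if j + l < M then y (j + l) else 0) := by
  have h1 : ∀ m, ∑ n ∈ range M, conv γ γ' m n * x m * y n =
      (∑ p ∈ antidiagonal m, ∑ j ∈ range M, ∑ l ∈ range M,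
        γ p.1 j * γ' p.2 l * (if j + l < M then y (j + l) else 0)) * x m := by
    intro m
    have h2 : ∀ p : ℕ × ℕ, ∑ j ∈ range M, ∑ l ∈ range M,
        γ p.1 j * γ' p.2 l * (if j + l < M then y (j + l) else 0) =
        ∑ n ∈ range M, (∑ q ∈ antidiagonal n, γ p.1 q.1 * γ' p.2 q.2) * y n :=
      fun p => (sum_antidiag_trunc M (fun j l => γ p.1 j * γ' p.2 l) y).symm
    simp only [h2]
    rw [Finset.sum_comm, Finset.sum_mul]
    refine Finset.sum_congr rfl fun n _ => ?_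
    unfold conv
    rw [← Finset.sum_mul]
    ring
  simp only [h1]
  rw [sum_antidiag_trunc M (fun i k => ∑ j ∈ range M, ∑ l ∈ range M,
    γ i j * γ' k l * (if j + l < M then y (j + l) else 0)) x]
  refine Finset.sum_congr rfl fun i _ => ?_
  unfold form
  simp only [Finset.sum_mul, Finset.mul_sum]
  rw [Finset.sum_comm]
  refine Finset.sum_congr rfl fun j _ => Finset.sum_congr rfl fun k _ =>
    Finset.sum_congr rfl fun l _ => ?_
  ring

lemma conv_bound {γ γ' : ℕ → ℕ → ℂ} {B B' : ℝ} (h : InjBound γ B) (h' : InjBound γ' B') :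
    InjBound (conv γ γ') (KK ^ 2 * B * B') := by
  intro x y hx hy M
  rw [conv_form]
  refine le_of_forall_pos_le_add fun ε hε => ?_
  have hKB : 0 ≤ KK * B := mul_nonneg KK_pos.le h.nonneg
  have hpos : 0 < ε / (KK * B + 1) := by positivity
  refine (tensor_bound h h' _ _ (fun i k => ?_) (fun j l => ?_) M
    (c := KK * B' + ε / (KK * B + 1)) (by linarith)).trans ?_
  · split_ifs
    · exact hx _
    · simp
  · split_ifs
    · exact hy _
    · simp
  · have h1 : KK * B * (ε / (KK * B + 1)) ≤ ε := by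
      rw [mul_div_assoc', div_le_iff₀ (by linarith)]
      nlinarith
    nlinarith

lemma InjBound.swap {γ : ℕ → ℕ → ℂ} {B : ℝ} (h : InjBound γ B) :
    InjBound (fun i j => γ j i) B := by
  intro x y hx hy M
  have := h y x hy hx M
  rw [Finset.sum_comm] at this
  refine le_trans (le_of_eq ?_) this
  congr 1
  exact Finset.sum_congr rfl fun i _ => Finset.sum_congr rfl fun j _ => by ring

lemma form_trunc (γ : ℕ → ℕ → ℂ) {M M' : ℕ} (hM : M ≤ M') (x y : ℕ → ℂ) :
    form γ M' (fun m => if m < M then x m else 0) (fun m => if m < M then y m else 0) =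
      form γ M x y := by
  unfold form
  symm
  have hsub : range M ⊆ range M' := Finset.range_subset_range.2 hM
  calc ∑ k ∈ range M, ∑ l ∈ range M, γ k l * x k * y l
      = ∑ k ∈ range M, ∑ l ∈ range M', γ k l * (if k < M then x k else 0) *
          (if l < M then y l else 0) := by
        refine Finset.sum_congr rfl fun k hk => ?_
        rw [if_pos (Finset.mem_range.1 hk)]
        rw [← Finset.sum_subset hsub]
        · refine Finset.sum_congr rfl fun l hl => ?_
          rw [if_pos (Finset.mem_range.1 hl)]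
        · intro l _ hl
          rw [if_neg (fun h => hl (Finset.mem_range.2 h)), mul_zero]
    _ = _ := by
        refine Finset.sum_subset hsub fun k _ hk => ?_
        rw [if_neg (fun h => hk (Finset.mem_range.2 h))]
        simp

lemma tail_rows {γ : ℕ → ℕ → ℂ} {B : ℝ} (h : InjBound γ B) {ε : ℝ} (hε : 0 < ε) :
    ∃ N : ℕ, ∀ x y : ℕ → ℂ, (∀ m, ‖x m‖ ≤ 1) → (∀ m, ‖y m‖ ≤ 1) → (∀ m, m < N → x m = 0) →
      ∀ M, ‖form γ M x y‖ ≤ ε := by
  by_contra hcon
  push Not at hcon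
  have h1 : ∀ N : ℕ, ∃ M : ℕ, N ≤ M ∧ ∃ x y : ℕ → ℂ, (∀ m, ‖x m‖ ≤ 1) ∧ (∀ m, ‖y m‖ ≤ 1) ∧
      (∀ m, m < N ∨ M ≤ m → x m = 0) ∧ ∀ M', M ≤ M' → ε < ‖form γ M' x y‖ := by
    intro N
    obtain ⟨x, y, hx, hy, hx0, M, hM⟩ := hcon N
    refine ⟨max N M, le_max_left _ _, fun m => if m < M then x m else 0,
      fun m => if m < M then y m else 0, fun m => ?_, fun m => ?_, fun m hm => ?_,
      fun M' hM' => ?_⟩
    · dsimp only
      split_ifs
      · exact hx _
      · simp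
    · dsimp only
      split_ifs
      · exact hy _
      · simp
    · dsimp only
      split_ifs with h2
      · rcases hm with hm | hm
        · exact hx0 m hm
        · have := le_max_right N M
          omega
      · rfl
    · rw [form_trunc γ ((le_max_right _ _).trans hM')]
      exact hM
  choose g hg x y hx hy hx0 hform using h1
  let n : ℕ → ℕ := fun r => g^[r] 0
  have hn : ∀ r, n (r + 1) = g (n r) := fun r => Function.iterate_succ_apply' g r 0
  have hmono : Monotone n := monotone_nat_of_le_succ fun r => by rw [hn]; exact hg _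
  set c := KK * B + 1 with hc
  obtain ⟨R, hR⟩ := exists_nat_gt (c ^ 2 / ε ^ 2)
  obtain ⟨lam, h1, h2, h3⟩ := fact h (n R) (c := c) (by linarith)
  have h4 : ∀ r, r < R → ε ^ 2 ≤ c ^ 2 * ∑ k ∈ Ico (n r) (n (r + 1)), lam k := by
    intro r hr
    have h5 : n (r + 1) ≤ n R := hmono hr
    have h6 := hform (n r) (n R) (by rw [← hn]; exact h5)
    have h7 := h3 (x (n r)) (y (n r)) (hy _)
    have h8 : ∑ k ∈ range (n R), lam k * ‖x (n r) k‖ ^ 2 ≤ ∑ k ∈ Ico (n r) (n (r + 1)), lam k := by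
      have hsub : Ico (n r) (n (r + 1)) ⊆ range (n R) := by
        intro k hk
        rw [Finset.mem_Ico] at hk
        rw [Finset.mem_range]
        omega
      rw [← Finset.sum_subset hsub]
      · refine Finset.sum_le_sum fun k _ => ?_
        have h9 : ‖x (n r) k‖ ^ 2 ≤ 1 := by
          have := hx (n r) k
          have := norm_nonneg (x (n r) k)
          nlinarith
        exact mul_le_of_le_one_right (h1 k) h9
      · intro k _ hk
        rw [Finset.mem_Ico, hn] at hk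
        rw [hx0 (n r) k (by omega)]
        simp
    have h9 : ε ^ 2 ≤ ‖form γ (n R) (x (n r)) (y (n r))‖ ^ 2 := by gcongr
    have h10 : c ^ 2 * ∑ k ∈ range (n R), lam k * ‖x (n r) k‖ ^ 2 ≤
        c ^ 2 * ∑ k ∈ Ico (n r) (n (r + 1)), lam k := by gcongr
    linarith
  have h5 : ∀ r, r ≤ R → r * ε ^ 2 ≤ c ^ 2 * ∑ k ∈ range (n r), lam k := by
    intro r
    induction r with
    | zero =>
      intro _
      simp only [Nat.cast_zero, zero_mul]
      exact mul_nonneg (sq_nonneg _) (Finset.sum_nonneg fun k _ => h1 k)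
    | succ r ih =>
      intro hr
      have h6 := ih (by omega)
      have h7 := h4 r (by omega)
      have h8 : ∑ k ∈ range (n (r + 1)), lam k =
          ∑ k ∈ range (n r), lam k + ∑ k ∈ Ico (n r) (n (r + 1)), lam k :=
        (Finset.sum_range_add_sum_Ico lam (hmono (Nat.le_succ r))).symm
      rw [h8]
      push_cast
      linarith
  have h6 := h5 R le_rfl
  have h7 : c ^ 2 * ∑ k ∈ range (n R), lam k ≤ c ^ 2 := mul_le_of_le_one_right (sq_nonneg _) h2
  rw [div_lt_iff₀ (by positivity)] at hR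
  linarith

theorem inTensor_of_bound {γ : ℕ → ℕ → ℂ} {B : ℝ} (h : InjBound γ B) : InTensor γ := by
  intro ε hε
  obtain ⟨N₁, h1⟩ := tail_rows h (half_pos hε)
  obtain ⟨N₂, h2⟩ := tail_rows h.swap (half_pos hε)
  set N := max N₁ N₂ with hN
  refine ⟨fun m k => if m < N ∧ k < N then γ m k else 0, ⟨N, fun m k hmk => ?_⟩, ?_⟩
  · dsimp only
    rw [if_neg]
    omega
  · intro x y hx hy M
    have e1 : ∑ m ∈ range M, ∑ k ∈ range M,
        (γ m k - if m < N ∧ k < N then γ m k else 0) * x m * y k =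
        form γ M (fun m => if m < N then 0 else x m) y +
          form (fun i j => γ j i) M (fun k => if k < N then 0 else y k)
            (fun m => if m < N then x m else 0) := by
      unfold form
      conv_rhs => arg 2; rw [Finset.sum_comm]
      rw [← Finset.sum_add_distrib]
      refine Finset.sum_congr rfl fun m _ => ?_
      rw [← Finset.sum_add_distrib]
      refine Finset.sum_congr rfl fun k _ => ?_
      by_cases hm : m < N <;> by_cases hk : k < N <;> simp [hm, hk]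
      ring
    rw [e1]
    have a1 := h1 (fun m => if m < N then 0 else x m) y (fun m => by
      split_ifs
      · simp
      · exact hx _) hy (fun m hm => by
      rw [if_pos (lt_of_lt_of_le hm (le_max_left _ _))]) M
    have a2 := h2 (fun k => if k < N then 0 else y k) (fun m => if m < N then x m else 0)
      (fun m => by
      split_ifs
      · simp
      · exact hy _) (fun m => by
      split_ifs
      · exact hx _
      · simp) (fun m hm => by
      rw [if_pos (lt_of_lt_of_le hm (le_max_right _ _))]) M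
    refine (norm_add_le _ _).trans ?_
    linarith

lemma antidiag_conv (γ γ' : ℕ → ℕ → ℂ) (n : ℕ) :
    ∑ t ∈ antidiagonal n, conv γ γ' t.1 t.2 =
      ∑ s ∈ antidiagonal n, (∑ p ∈ antidiagonal s.1, γ p.1 p.2) *
        (∑ q ∈ antidiagonal s.2, γ' q.1 q.2) := by
  unfold conv
  simp only [Finset.sum_mul_sum]
  simp only [← Finset.sum_product']
  rw [Finset.sum_sigma', Finset.sum_sigma']
  refine Finset.sum_bij'
    (fun z _ => ⟨(z.2.1.1 + z.2.2.1, z.2.1.2 + z.2.2.2), ((z.2.1.1, z.2.2.1), (z.2.1.2, z.2.2.2))⟩)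
    (fun z _ => ⟨(z.2.1.1 + z.2.2.1, z.2.1.2 + z.2.2.2), ((z.2.1.1, z.2.2.1), (z.2.1.2, z.2.2.2))⟩)
    ?_ ?_ ?_ ?_ ?_
  · rintro ⟨⟨a, b⟩, ⟨⟨i, k⟩, ⟨j, l⟩⟩⟩ hz
    simp only [mem_sigma, mem_product, HasAntidiagonal.mem_antidiagonal] at hz ⊢
    exact ⟨by omega, trivial, trivial⟩
  · rintro ⟨⟨a, b⟩, ⟨⟨i, k⟩, ⟨j, l⟩⟩⟩ hz
    simp only [mem_sigma, mem_product, HasAntidiagonal.mem_antidiagonal] at hz ⊢
    exact ⟨by omega, trivial, trivial⟩
  · rintro ⟨⟨a, b⟩, ⟨⟨i, k⟩, ⟨j, l⟩⟩⟩ hz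
    simp only [mem_sigma, mem_product, HasAntidiagonal.mem_antidiagonal] at hz
    obtain ⟨_, h1, h2⟩ := hz
    subst h1 h2
    rfl
  · rintro ⟨⟨a, b⟩, ⟨⟨i, k⟩, ⟨j, l⟩⟩⟩ hz
    simp only [mem_sigma, mem_product, HasAntidiagonal.mem_antidiagonal] at hz
    obtain ⟨_, h1, h2⟩ := hz
    subst h1 h2
    rfl
  · rintro ⟨⟨a, b⟩, ⟨⟨i, k⟩, ⟨j, l⟩⟩⟩ _
    rfl

lemma taylor_mul {φ ψ : ℂ → ℂ} (hφ : AnalyticAt ℂ φ 0) (hψ : AnalyticAt ℂ ψ 0) (n : ℕ) :
    taylor (φ * ψ) n = ∑ s ∈ antidiagonal n, taylor φ s.1 * taylor ψ s.2 := by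
  unfold taylor
  rw [iteratedDeriv_mul hφ.contDiffAt hψ.contDiffAt, Finset.sum_div,
    Finset.Nat.sum_antidiagonal_eq_sum_range_succ_mk]
  refine Finset.sum_congr rfl fun i hi => ?_
  have hi' : i ≤ n := Nat.lt_succ_iff.1 (Finset.mem_range.1 hi)
  have h1 : ((n.choose i : ℕ) : ℂ) * (i.factorial : ℂ) * ((n - i).factorial : ℂ) =
      (n.factorial : ℂ) := by
    exact_mod_cast Nat.choose_mul_factorial_mul_factorial hi'
  have h2 : (i.factorial : ℂ) ≠ 0 := by exact_mod_cast i.factorial_ne_zero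
  have h3 : ((n - i).factorial : ℂ) ≠ 0 := by exact_mod_cast (n - i).factorial_ne_zero
  have h4 : ((n.choose i : ℕ) : ℂ) ≠ 0 := by exact_mod_cast (Nat.choose_pos hi').ne'
  rw [← h1]
  field_simp

lemma bounds_mul {φ ψ : ℂ → ℂ} (hφ : AnalyticAt ℂ φ 0) (hψ : AnalyticAt ℂ ψ 0) {B B' : ℝ}
    (hB : B ∈ bounds φ) (hB' : B' ∈ bounds ψ) : KK ^ 2 * B * B' ∈ bounds (φ * ψ) := by
  obtain ⟨γ, -, h1, h2⟩ := hB
  obtain ⟨γ', -, h1', h2'⟩ := hB'
  refine ⟨conv γ γ', inTensor_of_bound (conv_bound h1 h1'), conv_bound h1 h1', fun n => ?_⟩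
  rw [antidiag_conv, taylor_mul hφ hψ]
  exact Finset.sum_congr rfl fun s _ => by rw [h2, h2']

lemma bounds_nonneg {φ : ℂ → ℂ} {B : ℝ} (hB : B ∈ bounds φ) : 0 ≤ B := by
  obtain ⟨γ, -, h1, -⟩ := hB
  exact h1.nonneg

theorem main (φ ψ : ℂ → ℂ) (hφ : InL φ) (hψ : InL ψ) :
    InL (φ * ψ) ∧ normL (φ * ψ) ≤ KK ^ 2 * normL φ * normL ψ := by
  have h0 : (0 : ℂ) ∈ Metric.ball (0 : ℂ) 1 := Metric.mem_ball_self one_pos
  have hφ0 := hφ.1 0 h0
  have hψ0 := hψ.1 0 h0
  obtain ⟨B₀, hB₀⟩ := hφ.2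
  obtain ⟨B₀', hB₀'⟩ := hψ.2
  refine ⟨⟨hφ.1.mul hψ.1, _, bounds_mul hφ0 hψ0 hB₀ hB₀'⟩, ?_⟩
  have hbdd : BddBelow (bounds (φ * ψ)) := ⟨0, fun B hB => bounds_nonneg hB⟩
  have hK : 0 < KK ^ 2 := pow_pos KK_pos 2
  have h1 : ∀ B ∈ bounds φ, ∀ B' ∈ bounds ψ, normL (φ * ψ) ≤ KK ^ 2 * B * B' :=
    fun B hB B' hB' => csInf_le hbdd (bounds_mul hφ0 hψ0 hB hB')
  have h2 : ∀ B ∈ bounds φ, normL (φ * ψ) ≤ KK ^ 2 * B * normL ψ := by
    intro B hB
    rcases (bounds_nonneg hB).eq_or_lt with hz | hp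
    · have := h1 B hB B₀' hB₀'
      rw [← hz] at this ⊢
      simpa using this
    · rw [← div_le_iff₀' (by positivity)]
      refine le_csInf hψ.2 fun B' hB' => ?_
      rw [div_le_iff₀' (by positivity)]
      exact h1 B hB B' hB'
  have hψn : 0 ≤ normL ψ := le_csInf hψ.2 fun B hB => bounds_nonneg hB
  rcases hψn.eq_or_lt with hz | hp
  · have := h2 B₀ hB₀
    rw [← hz] at this ⊢
    simpa using this
  · have e : KK ^ 2 * normL φ * normL ψ = (KK ^ 2 * normL ψ) * normL φ := by ring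
    rw [e, ← div_le_iff₀' (by positivity)]
    refine le_csInf hφ.2 fun B hB => ?_
    rw [div_le_iff₀' (by positivity)]
    have := h2 B hB
    linarith

end Pool.Agent.H448Z.Pel
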